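import Pool.Agent.HI.A4
import Pool.Agent.HI.A6
import Pool.Agent.HC.NiceKey

set_option autoImplicit false
set_option linter.unusedSectionVars false

noncomputable section

open scoped InnerProductSpace ENNReal Topology
open Classical Filter ContinuousLinearMap

/-!
Approximation for groups acting on trees, with key estimates for the pairs of edges and vertices.
-/

namespace Pool.Agent.EHA

open Pool.Agent.VN Pool.Agent.LFT Pool.Agent.HI Pool.Agent.HC Pool.Agent.HX

/-- over the complex numbers the estimate holds for finite subgroups -/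
theorem key_fintop {A : Type} [Group A] (C : Subgroup A) (hC : Finite C) :
    KeyP (⊤ : Subring ℂ) A C := by
  intro ι _ ξ P hP hl u Y hY ε hε
  have hR : Rat (⊤ : Subring ℂ) ξ P := by
    refine rat_of_finite ξ (fun i => ?_) hP hl
    obtain ⟨g, hg⟩ := QuotientGroup.mk_surjective (ξ i)
    have h2 : ((g : A) : A ⧸ C) = g • ((1 : A) : A ⧸ C) := by
      rw [MulAction.Quotient.smul_coe, smul_eq_mul, mul_one]
    rw [← hg, h2, MulAction.stabilizer_smul_eq_stabilizer_map_conj, MulAction.stabilizer_quotient]
    have h3 : ((MulAut.conj g).toMonoidHom '' (C : Set A)).Finite := (Set.toFinite _).image _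
    exact h3.to_subtype
  obtain ⟨S, hS, h⟩ := key_of_rat (fun _ : A ⧸ C => ()) ξ hR u hY
  exact ⟨S, hS, by linarith⟩

section Tree

variable {B V : Type} [Group B] [MulAction B V]

/-- the formula for trees with key estimates -/
theorem af_comb (k : Subring ℂ) (T : SimpleGraph V) (hT : T.IsTree)
    (hadj : ∀ (g : B) (u v : V), T.Adj u v → T.Adj (g • u) (g • v))
    (hinv : ∀ (g : B) (u v : V), T.Adj u v → ¬ (g • u = v ∧ g • v = u))
    (hK : ∀ u v : V, T.Adj u v → KeyP k (MulAction.stabilizer B u)
      ((MulAction.stabilizer B v).subgroupOf (MulAction.stabilizer B u))) :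
    @AF k B _ T.Dart V {e : Sym2 V // e ∈ T.edgeSet} (dartAct T hadj) _ (edgeAct T hadj)
      (fun e : T.Dart => e.fst)
      (fun e : T.Dart => (⟨e.edge, e.edge_mem⟩ : {e : Sym2 V // e ∈ T.edgeSet})) := by
  let i1 : MulAction B T.Dart := dartAct T hadj
  let i2 : MulAction B {e : Sym2 V // e ∈ T.edgeSet} := edgeAct T hadj
  have h0 : Eqv B (fun e : T.Dart => e.fst) := fun g δ => rfl
  have hkey0 : KeyS k B (fun e : T.Dart => e.fst) := by
    refine keyS_of_stab (fun e : T.Dart => e.fst) h0 fun v => ?_
    let i3 : MulAction (MulAction.stabilizer B v) {δ : T.Dart // δ.fst = v} :=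
      fibAct (fun e : T.Dart => e.fst) h0 v
    refine keyG_of_orbits fun ξ => ?_
    have hst : MulAction.stabilizer (MulAction.stabilizer B v) ξ
        = (MulAction.stabilizer B ξ.1.snd).subgroupOf (MulAction.stabilizer B v) := by
      ext g
      rw [MulAction.mem_stabilizer_iff, Subgroup.mem_subgroupOf, MulAction.mem_stabilizer_iff]
      constructor
      · intro h2
        have h3 : (g : B) • ξ.1 = ξ.1 := congrArg Subtype.val h2
        exact congrArg (fun e : T.Dart => e.snd) h3
      · intro h2
        apply Subtype.ext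
        show (g : B) • ξ.1 = ξ.1
        apply SimpleGraph.Dart.ext
        refine Prod.ext ?_ h2
        show (g : B) • ξ.1.fst = ξ.1.fst
        have h4 : ξ.1.fst = v := ξ.2
        rw [h4]
        exact g.2
    rw [hst]
    refine hK v ξ.1.snd ?_
    have h5 := ξ.1.adj
    have h4 : ξ.1.fst = v := ξ.2
    rwa [h4] at h5
  refine af_of_keys h0 (fun g δ => rfl) (tree_half T hT) hkey0 ?_
  intro ι _ d P hP hl u Y hY ε hε
  refine key_of_stab (a := fun e : T.Dart =>
    (⟨e.edge, e.edge_mem⟩ : {e : Sym2 V // e ∈ T.edgeSet})) (fun g m => rfl) ?_ d hP hl u hY hε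
  exact fun g δ h => dart_of_edge T hadj hinv g δ h

/-- approximation for groups acting on trees -/
theorem approx_comb (k : Subring ℂ) (T : SimpleGraph V) (hT : T.IsTree)
    (hadj : ∀ (g : B) (u v : V), T.Adj u v → T.Adj (g • u) (g • v))
    (hinv : ∀ (g : B) (u v : V), T.Adj u v → ¬ (g • u = v ∧ g • v = u))
    (hE : ∀ u v : V, T.Adj u v →
      (MulAction.stabilizer B v).relIndex (MulAction.stabilizer B u) ≠ 0 ∨
        (k = ⊤ ∧ {g : B | g • u = u ∧ g • v = v}.Finite) ∨
        (AtiyahOver k (MulAction.stabilizer B u) ∧ Nice k (MulAction.stabilizer B u)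
          ((MulAction.stabilizer B v).subgroupOf (MulAction.stabilizer B u))))
    {I : Type} (l : Filter I) {H : I → Type} [∀ i, Group (H i)] (π : ∀ i, B →* H i)
    (hπ : ∀ g : B, g ≠ 1 → ∀ᶠ i in l, π i g ≠ 1)
    (h : ∀ v : V, ApproxAlong k l (fun i => (π i).comp (MulAction.stabilizer B v).subtype)) :
    ApproxAlong k l π := by
  refine approx_tree T hT hadj hinv (af_comb k T hT hadj hinv ?_) l π hπ h
  intro u v huv
  rcases hE u v huv with h1 | ⟨rfl, h1⟩ | ⟨h1, h2⟩
  · exact key_finite _ h1
  · refine key_fintop _ ?_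
    have h2 : (((MulAction.stabilizer B v).subgroupOf (MulAction.stabilizer B u) :
        Subgroup (MulAction.stabilizer B u)) : Set (MulAction.stabilizer B u)).Finite := by
      have h3 := Set.Finite.preimage
        (f := (Subtype.val : MulAction.stabilizer B u → B)) Subtype.val_injective.injOn h1
      refine h3.subset ?_
      intro g hg
      exact ⟨g.2, hg⟩
    exact h2.to_subtype
  · exact key_of_nice h2 h1

end Tree

end Pool.Agent.EHA
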