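import Pool.Agent.EHA.Tree
import Pool.Agent.EH.Final

set_option autoImplicit false
set_option linter.unusedSectionVars false

noncomputable section

open scoped InnerProductSpace ENNReal Topology
open Classical Filter ContinuousLinearMap

/-!
Approximation for extensions: the inductive property and elementary amenable groups.
-/

namespace Pool.Agent.EHA

open Pool.Agent.VN Pool.Agent.LFT Pool.Agent.HI Pool.Agent.HX Pool.Agent.EH

/-- approximation passes from the kernels of homomorphisms to `B` -/
def ApE (k : Subring ℂ) (B : Type) [Group B] : Prop :=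
  ∀ (G : Type) [Group G] (f : G →* B), AtiyahOver k f.ker →
    ∀ (I : Type) (l : Filter I) (H : I → Type) [∀ i, Group (H i)] (π : ∀ i, G →* H i),
      (∀ g : G, g ≠ 1 → ∀ᶠ i in l, π i g ≠ 1) →
        ApproxAlong k l (fun i => (π i).comp f.ker.subtype) → ApproxAlong k l π

/-- the inductive property -/
def PA (k : Subring ℂ) (B : Type) [Group B] : Prop := Pool.Agent.HE.PB k B ∧ ApE k B

section Basic

variable {k : Subring ℂ}

lemma approx_of_le {G : Type} [Group G] {I : Type} {l : Filter I} {H : I → Type}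
    [∀ i, Group (H i)] {π : ∀ i, G →* H i} {K L : Subgroup G} (hle : K ≤ L)
    (h : ApproxAlong k l fun i => (π i).comp L.subtype) :
    ApproxAlong k l fun i => (π i).comp K.subtype :=
  approx_of_injective k l (fun i => (π i).comp L.subtype) (Subgroup.inclusion hle)
    (Subgroup.inclusion_injective hle) h

lemma pi_sub {G : Type} [Group G] {I : Type} {l : Filter I} {H : I → Type}
    [∀ i, Group (H i)] {π : ∀ i, G →* H i} (hπ : ∀ g : G, g ≠ 1 → ∀ᶠ i in l, π i g ≠ 1)
    (K : Subgroup G) : ∀ g : K, g ≠ 1 → ∀ᶠ i in l, ((π i).comp K.subtype) g ≠ 1 :=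
  fun g hg => hπ g.1 fun h => hg (Subtype.ext h)

/-- homomorphisms to a group with the property, defined on a subgroup -/
lemma ApE.sub {B : Type} [Group B] (h : ApE k B) {G : Type} [Group G] (K N : Subgroup G)
    (hN : AtiyahOver k N) {I : Type} {l : Filter I} {H : I → Type}
    [∀ i, Group (H i)] {π : ∀ i, G →* H i} (hπ : ∀ g : G, g ≠ 1 → ∀ᶠ i in l, π i g ≠ 1)
    (hA : ApproxAlong k l fun i => (π i).comp N.subtype) (f : K →* B)
    (hf : ∀ x : K, f x = 1 → x.1 ∈ N) : ApproxAlong k l fun i => (π i).comp K.subtype := by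
  let j : f.ker →* N :=
    { toFun := fun x => ⟨x.1.1, hf x.1 x.2⟩
      map_one' := rfl
      map_mul' := fun _ _ => rfl }
  have hj : Function.Injective j := by
    intro a b hab
    exact Subtype.ext (Subtype.ext (congrArg (fun x : N => x.1) hab))
  refine h K f (AtiyahOver.of_injective hN j hj) I l H _ (pi_sub hπ K) ?_
  exact approx_of_injective k l (fun i => (π i).comp N.subtype) j hj hA

lemma atiyah_sub {B : Type} [Group B] (h : Pool.Agent.HE.PB k B) {G : Type} [Group G]
    (K N : Subgroup G) (hN : AtiyahOver k N) (f : K →* B) (hf : ∀ x : K, f x = 1 → x.1 ∈ N) :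
    AtiyahOver k K := by
  let j : f.ker →* N :=
    { toFun := fun x => ⟨x.1.1, hf x.1 x.2⟩
      map_one' := rfl
      map_mul' := fun _ _ => rfl }
  have hj : Function.Injective j := by
    intro a b hab
    exact Subtype.ext (Subtype.ext (congrArg (fun x : N => x.1) hab))
  exact atiyah_of_pb h f (AtiyahOver.of_injective hN j hj)

/-- preimages of subgroups with the property -/
lemma ApE.comap {B : Type} [Group B] (B1 : Subgroup B) (h : ApE k B1) {G : Type} [Group G]
    (f : G →* B) (hN : AtiyahOver k f.ker) {I : Type} {l : Filter I} {H : I → Type}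
    [∀ i, Group (H i)] {π : ∀ i, G →* H i} (hπ : ∀ g : G, g ≠ 1 → ∀ᶠ i in l, π i g ≠ 1)
    (hA : ApproxAlong k l fun i => (π i).comp f.ker.subtype) :
    ApproxAlong k l fun i => (π i).comp (B1.comap f).subtype := by
  refine h.sub (B1.comap f) f.ker hN hπ hA
    (MonoidHom.mk' (fun x => ⟨f x.1, x.2⟩) fun a b => Subtype.ext (map_mul f _ _)) ?_
  intro x hx
  exact congrArg Subtype.val hx

lemma atiyah_comap {B : Type} [Group B] (B1 : Subgroup B) (h : Pool.Agent.HE.PB k B1) {G : Type}
    [Group G] (f : G →* B) (hN : AtiyahOver k f.ker) : AtiyahOver k (B1.comap f) := by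
  refine atiyah_sub h (B1.comap f) f.ker hN
    (MonoidHom.mk' (fun x => ⟨f x.1, x.2⟩) fun a b => Subtype.ext (map_mul f _ _)) ?_
  intro x hx
  exact congrArg Subtype.val hx

lemma apE_triv (B : Type) [Group B] [Subsingleton B] : ApE k B := by
  intro G _ f _ I l H _ π _ hA
  have h1 := approx_of_injective k l (fun i => (π i).comp f.ker.subtype)
    (MonoidHom.mk' (fun g : G => (⟨g, Subsingleton.elim _ _⟩ : f.ker)) fun a b => rfl)
    (fun a b hab => congrArg (fun x : f.ker => x.1) hab) hA
  have h2 : (fun i => ((π i).comp f.ker.subtype).comp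
      (MonoidHom.mk' (fun g : G => (⟨g, Subsingleton.elim _ _⟩ : f.ker)) fun a b => rfl)) = π := by
    funext i
    ext g
    rfl
  rwa [h2] at h1

lemma apE_of_inj {B B' : Type} [Group B] [Group B'] (f : B' →* B) (hf : Function.Injective f)
    (h : ApE k B) : ApE k B' := by
  intro G _ g hg I l H _ π hπ hA
  have h1 : (f.comp g).ker ≤ g.ker := by
    intro x hx
    rw [MonoidHom.mem_ker] at hx ⊢
    apply hf
    rw [map_one]
    exact hx
  exact h G (f.comp g) (AtiyahOver.of_injective hg (Subgroup.inclusion h1)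
    (Subgroup.inclusion_injective h1)) I l H π hπ (approx_of_le h1 hA)

theorem pa_of_inj {B B' : Type} [Group B] [Group B'] (f : B' →* B) (hf : Function.Injective f)
    (h : PA k B) : PA k B' :=
  ⟨pb_of_inj f hf h.1, apE_of_inj f hf h.2⟩

theorem pa_triv (B : Type) [Group B] [Subsingleton B] : PA k B :=
  ⟨Pool.Agent.HE.pb_triv k B, apE_triv B⟩

theorem pa_union (B : Type) [Group B] (K : Finset B → Subgroup B)
    (hK : ∀ F, ∀ g ∈ F, g ∈ K F) (h : ∀ F, PA k (K F)) : PA k B := by
  refine ⟨Pool.Agent.HE.pb_union k B K hK fun F => (h F).1, ?_⟩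
  intro G _ f hf I l H _ π hπ hA
  refine approx_of_union k l π (fun F => (K (F.image f)).comap f) ?_ ?_
  · intro F g hg
    exact hK _ _ (Finset.mem_image_of_mem f hg)
  · intro F
    exact (h _).2.comap (K (F.image f)) f hf hπ hA

theorem pa_tree {B V : Type} [Group B] [MulAction B V] (T : SimpleGraph V) (hT : T.IsTree)
    (hadj : ∀ (g : B) (u v : V), T.Adj u v → T.Adj (g • u) (g • v))
    (hinv : ∀ (g : B) (u v : V), T.Adj u v → ¬ (g • u = v ∧ g • v = u))
    (h : ∀ v : V, PA k (MulAction.stabilizer B v)) : PA k B := by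
  refine ⟨Pool.Agent.HE.pb_tree k T hT hadj hinv fun v => (h v).1, ?_⟩
  intro G _ f hf I l H _ π hπ hA
  exact approx_tree_ext T hT hadj hinv (fun v => (h v).1) f hf l π hπ
    fun v => (h v).2.comap _ f hf hπ hA

/-- the local criterion -/
theorem apE_local (B : Type) [Group B]
    (h : ∀ D : Subgroup B, D.FG → (∀ f : D →* Multiplicative ℤ, f = 1) → PA k D) : ApE k B := by
  intro G _ f hf I l H _ π hπ hA
  refine approx_of_fg k l π hπ fun K hK hZ => ?_
  have h1 : PA k (K.map f) := by
    refine h (K.map f) (H16_map f hK) ?_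
    intro φ
    have h2 := hZ (φ.comp (f.subgroupMap K))
    ext ⟨y, x, hx, rfl⟩
    exact DFunLike.congr_fun h2 ⟨x, hx⟩
  have hle : K ≤ (K.map f).comap f := Subgroup.le_comap_map f K
  refine ⟨?_, approx_of_le hle (h1.2.comap (K.map f) f hf hπ hA)⟩
  exact AtiyahOver.of_injective (atiyah_comap (K.map f) h1.1 f hf) (Subgroup.inclusion hle)
    (Subgroup.inclusion_injective hle)

end Basic

section St

variable {k : Subring ℂ}

/-- the property passes to extensions -/
def St2 (k : Subring ℂ) (A : Type) [Group A] : Prop :=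
  ∀ (B : Type) [Group B] (p : B →* A), (∀ F : Subgroup A, Finite F → PA k (F.comap p)) → PA k B

theorem st2_finite (A : Type) [Group A] [Finite A] : St2 k A := by
  intro B _ p h
  have h1 := h ⊤ inferInstance
  refine pa_of_inj (MonoidHom.mk' (fun b : B => (⟨b, trivial⟩ : (⊤ : Subgroup A).comap p))
    fun a b => rfl) ?_ h1
  intro a b hab
  exact congrArg (fun x : (⊤ : Subgroup A).comap p => x.1) hab

lemma restrict2 {A B : Type} [Group A] [Group B] (p : B →* A) (A1 : Subgroup A) (h : St2 k A1)
    (hp : ∀ F : Subgroup A, Finite F → PA k (F.comap p)) : PA k (A1.comap p) := by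
  let p1 : A1.comap p →* A1 := MonoidHom.mk' (fun b => ⟨p b.1, b.2⟩) fun a b =>
    Subtype.ext (map_mul p _ _)
  apply h (A1.comap p) p1
  intro F1 hF1
  have hfin : Finite (F1.map A1.subtype) := by
    have h2 : ((A1.subtype : A1 → A) '' (F1 : Set A1)).Finite := (Set.toFinite _).image _
    exact h2.to_subtype
  refine pa_of_inj (MonoidHom.mk' (fun x : F1.comap p1 =>
    (⟨x.1.1, ⟨p1 x.1, x.2, rfl⟩⟩ : (F1.map A1.subtype).comap p)) fun a b => rfl) ?_
    (hp _ hfin)
  intro a b hab
  exact Subtype.ext (Subtype.ext (congrArg (fun x : (F1.map A1.subtype).comap p => x.1) hab))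

theorem st2_ext {A : Type} [Group A] (N : Subgroup A) [N.Normal] (h : St2 k (A ⧸ N))
    (h' : ∀ F : Subgroup (A ⧸ N), Finite F → St2 k (F.comap (QuotientGroup.mk' N))) :
    St2 k A := by
  intro B _ p hp
  apply h B ((QuotientGroup.mk' N).comp p)
  intro F hF
  exact restrict2 p (F.comap (QuotientGroup.mk' N)) (h' F hF) hp

theorem st2_union {A : Type} [Group A] (H : Finset A → Subgroup A) (hH : ∀ F, ∀ g ∈ F, g ∈ H F)
    (h : ∀ F, St2 k (H F)) : St2 k A := by
  intro B _ p hp
  refine pa_union B (fun F => (H (F.image p)).comap p) ?_ ?_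
  · intro F g hg
    exact hH _ _ (Finset.mem_image_of_mem p hg)
  · intro F
    exact restrict2 p _ (h _) hp

/-- finitely generated commutative groups without homomorphisms to the integers are finite -/
lemma finite_of_noZ (D : Type) [Group D] (hcomm : ∀ a b : D, a * b = b * a) (hfg : Group.FG D)
    (hZ : ∀ f : D →* Multiplicative ℤ, f = 1) : Finite D := by
  let _ : CommGroup D := { (inferInstance : Group D) with mul_comm := hcomm }
  obtain ⟨n, ι, hι, p, hp, e, ⟨f⟩⟩ := AddCommGroup.equiv_free_prod_directSum_zmod (Additive D)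
  have : ∀ i, NeZero (p i ^ e i) := fun i => ⟨pow_ne_zero _ (hp i).ne_zero⟩
  have : Finite (DirectSum ι fun i => ZMod (p i ^ e i)) :=
    Finite.of_equiv _ (DirectSum.addEquivProd (fun i => ZMod (p i ^ e i))).symm.toEquiv
  refine Finite.of_injective (fun x : D => (f (Additive.ofMul x)).2) ?_
  have h0 : ∀ x : D, (f (Additive.ofMul x)).1 = 0 := by
    intro x
    ext i
    let φ : D →* Multiplicative ℤ := AddMonoidHom.toMultiplicativeRight
      ((Finsupp.applyAddHom i).comp
        ((AddMonoidHom.fst (Fin n →₀ ℤ) (DirectSum ι fun i => ZMod (p i ^ e i))).comp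
          f.toAddMonoidHom))
    have h1 := DFunLike.congr_fun (hZ φ) x
    exact h1
  intro x y hxy
  have h2 : f (Additive.ofMul x) = f (Additive.ofMul y) :=
    Prod.ext ((h0 x).trans (h0 y).symm) hxy
  exact f.injective h2

/-- virtually abelian groups -/
lemma st2_vab {C' : Type} [Group C'] (C : Subgroup C') (hC : C.index ≠ 0)
    (hcomm : ∀ a ∈ C, ∀ b ∈ C, a * b = b * a)
    (hst : St k C') : St2 k C' := by
  intro B _ p hp
  refine ⟨hst B p fun F hF => (hp F hF).1, ?_⟩
  intro G _ f hf I l H _ π hπ hA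
  have hfi : C.FiniteIndex := ⟨hC⟩
  have hidx : ((C.comap p).comap f).index ≠ 0 := by
    rw [Subgroup.comap_comap, Subgroup.index_comap]
    exact Subgroup.FiniteIndex.index_ne_zero (H := C.subgroupOf (p.comp f).range)
  refine approx_finindex k l π hπ ((C.comap p).comap f) hidx ?_
  refine ApE.comap (C.comap p) ?_ f hf hπ hA
  refine apE_local _ fun D hD hZ => ?_
  -- the image of `D` in `C'`
  let g : D →* C' := (p.comp (C.comap p).subtype).comp D.subtype
  have hDfg : Group.FG D := (Group.fg_iff_subgroup_fg D).2 hD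
  have hfg : Group.FG g.range := Group.fg_range g
  have hfin : Finite g.range := by
    refine finite_of_noZ g.range ?_ hfg ?_
    · rintro ⟨_, a, rfl⟩ ⟨_, b, rfl⟩
      exact Subtype.ext (hcomm _ a.1.2 _ b.1.2)
    · intro φ
      have h2 := hZ (φ.comp g.rangeRestrict)
      ext ⟨y, x, rfl⟩
      exact DFunLike.congr_fun h2 x
  refine pa_of_inj (MonoidHom.mk' (fun x : D => (⟨x.1.1, ⟨x, rfl⟩⟩ : g.range.comap p))
    fun a b => rfl) ?_ (hp g.range hfin)
  intro a b hab
  exact Subtype.ext (Subtype.ext (congrArg (fun x : g.range.comap p => x.1) hab))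

lemma of_finite_index {C' : Type} [Group C'] (C : Subgroup C') (hC : C.index ≠ 0)
    (h : Finite C) : Finite C' :=
  C.finite_iff_finite_and_finiteIndex.2 ⟨h, ⟨hC⟩⟩

/-- the statement of the induction -/
def SP (k : Subring ℂ) (A : Type) [Group A] : Prop :=
  ∀ (C' : Type) [Group C'] (C : Subgroup C') [C.Normal] (_ : C.index ≠ 0) (s : ℕ)
      (f : C →* (Fin s → A)), Function.Injective f → St2 k C'

lemma sp_of_finite {A : Type} [Group A] (h : SP k A) (C' : Type) [Group C']
    (C : Subgroup C') [C.Normal] (hC : C.index ≠ 0) (T : Type) [Finite T] (f : C →* (T → A))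
    (hf : Function.Injective f) : St2 k C' := by
  obtain ⟨n, ⟨e⟩⟩ := Finite.exists_equiv_fin T
  refine h C' C hC n ⟨⟨fun c t => f c (e.symm t), ?_⟩, ?_⟩ ?_
  · funext t
    rw [map_one]
    rfl
  · intro a b
    funext t
    show f (a * b) (e.symm t) = f a (e.symm t) * f b (e.symm t)
    rw [map_mul]
    rfl
  · intro a b hab
    apply hf
    funext t
    have h1 := congrFun hab (e t)
    simpa using h1

lemma sp_fin (A : Type) [Group A] [Finite A] : SP k A := by
  intro C' _ C _ hC s f hf
  have h1 : Finite C := Finite.of_injective f hf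
  have h2 : Finite C' := of_finite_index C hC h1
  exact st2_finite C'

lemma sp_comm (A : Type) [Group A] (h : ∀ a b : A, a * b = b * a) : SP k A := by
  intro C' _ C _ hC s f hf
  refine st2_vab C hC ?_ (st_ea st_af (EA.comm A h) C' C hC s f hf)
  intro a ha b hb
  have h1 : (⟨a, ha⟩ : C) * ⟨b, hb⟩ = ⟨b, hb⟩ * ⟨a, ha⟩ := by
    apply hf
    rw [map_mul, map_mul]
    funext t
    exact h _ _
  exact congrArg (fun c : C => (c : C')) h1

lemma sp_union (A : Type) [Group A] (H : Finset A → Subgroup A)
    (hH : ∀ F, ∀ g ∈ F, g ∈ H F) (h : ∀ F, SP k (H F)) : SP k A := by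
  intro C' _ C _ hC s f hf
  refine st2_union (fun F : Finset C' => Subgroup.closure (F : Set C'))
    (fun F g hg => Subgroup.subset_closure hg) fun F => ?_
  have hfi : C.FiniteIndex := ⟨hC⟩
  have hfg : Group.FG (Subgroup.closure (F : Set C')) := Group.closure_finset_fg F
  set D := Subgroup.closure (F : Set C') with hD
  have hfg2 : Group.FG (C.subgroupOf D) := inferInstance
  obtain ⟨S, hS⟩ := (Group.fg_def.1 hfg2)
  let j : C.subgroupOf D →* C := ⟨⟨fun c => ⟨(c : D), c.2⟩, rfl⟩, fun a b => rfl⟩
  have hj : Function.Injective j := by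
    intro a b hab
    have h1 := congrArg (fun c : C => (c : C')) hab
    exact Subtype.ext (Subtype.ext h1)
  let F1 : Finset A := (S ×ˢ (Finset.univ : Finset (Fin s))).image fun u => f (j u.1) u.2
  let T : Subgroup (C.subgroupOf D) :=
    { carrier := {c | ∀ t, f (j c) t ∈ H F1}
      mul_mem' := by
        intro a b ha hb t
        rw [map_mul, map_mul]
        exact (H F1).mul_mem (ha t) (hb t)
      one_mem' := by
        intro t
        rw [map_one, map_one]
        exact (H F1).one_mem
      inv_mem' := by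
        intro a ha t
        rw [map_inv, map_inv]
        exact (H F1).inv_mem (ha t) }
  have hT : ∀ c, c ∈ T := by
    have h1 : Subgroup.closure (S : Set (C.subgroupOf D)) ≤ T := by
      rw [Subgroup.closure_le]
      intro c hc t
      exact hH F1 _ (Finset.mem_image.2 ⟨(c, t), Finset.mem_product.2 ⟨hc, Finset.mem_univ _⟩, rfl⟩)
    intro c
    rw [hS] at h1
    exact h1 (Subgroup.mem_top c)
  refine h F1 D (C.subgroupOf D) Subgroup.FiniteIndex.index_ne_zero s
    ⟨⟨fun c t => ⟨f (j c) t, hT c t⟩, ?_⟩, ?_⟩ ?_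
  · funext t
    apply Subtype.ext
    show f (j 1) t = 1
    rw [map_one, map_one]
    rfl
  · intro a b
    funext t
    apply Subtype.ext
    show f (j (a * b)) t = f (j a) t * f (j b) t
    rw [map_mul, map_mul]
    rfl
  · intro a b hab
    apply hj
    apply hf
    funext t
    have h1 := congrFun hab t
    exact congrArg (fun x : H F1 => (x : A)) h1

lemma sp_ext (A : Type) [Group A] (N : Subgroup A) [N.Normal] (h : SP k N)
    (h' : SP k (A ⧸ N)) : SP k A := by
  intro C' _ C hCn hC s f hf
  have hfi : C.FiniteIndex := ⟨hC⟩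
  -- the homomorphism to the quotients
  let φ : C →* ((C' ⧸ C) × Fin s → A ⧸ N) := MonoidHom.pi fun u =>
    (QuotientGroup.mk' N).comp ((Pi.evalMonoidHom (fun _ : Fin s => A) u.2).comp
      (f.comp (MulAut.conjNormal (Quotient.out u.1)⁻¹ : C ≃* C).toMonoidHom))
  have hφ : ∀ c u, φ c u = ((f (MulAut.conjNormal (Quotient.out u.1)⁻¹ c) u.2 : A) : A ⧸ N) :=
    fun c u => rfl
  have hker : ∀ c, φ c = 1 → ∀ (g : C') (t : Fin s), f (MulAut.conjNormal g c) t ∈ N := by
    intro c hc g t
    have h1 := congrFun hc ((g⁻¹ : C' ⧸ C), t)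
    rw [hφ, Pi.one_apply, QuotientGroup.eq_one_iff] at h1
    set σ : C' := Quotient.out ((g⁻¹ : C') : C' ⧸ C) with hσ
    have h2 : σ⁻¹ * g⁻¹ ∈ C := by
      rw [← QuotientGroup.eq, hσ]
      exact Quotient.out_eq _
    have h3 : MulAut.conjNormal g c =
        (⟨σ⁻¹ * g⁻¹, h2⟩ : C)⁻¹ * MulAut.conjNormal σ⁻¹ c * ⟨σ⁻¹ * g⁻¹, h2⟩ := by
      apply Subtype.ext
      simp only [Subgroup.coe_mul, Subgroup.coe_inv, MulAut.conjNormal_apply]
      group
    rw [h3, map_mul, map_mul, map_inv]
    have h4 := Subgroup.Normal.conj_mem inferInstance _ h1 ((f ⟨σ⁻¹ * g⁻¹, h2⟩ t)⁻¹)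
    rw [inv_inv] at h4
    exact h4
  have hker' : ∀ c, (∀ (g : C') (t : Fin s), f (MulAut.conjNormal g c) t ∈ N) → φ c = 1 := by
    intro c hc
    funext u
    rw [hφ, Pi.one_apply, QuotientGroup.eq_one_iff]
    exact hc _ _
  let C1 : Subgroup C' := φ.ker.map C.subtype
  have hC1 : ∀ x, x ∈ C1 ↔ ∃ c : C, φ c = 1 ∧ (c : C') = x := by
    intro x
    constructor
    · rintro ⟨c, hc, rfl⟩
      exact ⟨c, MonoidHom.mem_ker.1 hc, rfl⟩
    · rintro ⟨c, hc, rfl⟩
      exact ⟨c, MonoidHom.mem_ker.2 hc, rfl⟩
  have hC1n : C1.Normal := by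
    refine ⟨fun x hx g => ?_⟩
    obtain ⟨c, hc, rfl⟩ := (hC1 x).1 hx
    refine (hC1 _).2 ⟨MulAut.conjNormal g c, ?_, MulAut.conjNormal_apply g c⟩
    apply hker'
    intro g' t
    have h1 := hker c hc (g' * g) t
    rw [map_mul] at h1
    exact h1
  refine st2_ext C1 ?_ ?_
  · -- the quotient
    have hn : (C.map (QuotientGroup.mk' C1)).Normal :=
      Subgroup.Normal.map hCn _ (QuotientGroup.mk'_surjective C1)
    have hi : (C.map (QuotientGroup.mk' C1)).index ≠ 0 := by
      intro h0
      have h1 := Subgroup.index_map_dvd C (QuotientGroup.mk'_surjective C1)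
      rw [h0, zero_dvd_iff] at h1
      exact hC h1
    let π := (QuotientGroup.mk' C1).subgroupMap C
    have hπ : Function.Surjective π := (QuotientGroup.mk' C1).subgroupMap_surjective C
    have hπk : ∀ c, π c = 1 ↔ φ c = 1 := by
      intro c
      have h1 : π c = 1 ↔ ((c : C') : C' ⧸ C1) = 1 := by
        constructor
        · intro h
          exact congrArg (fun x : C.map (QuotientGroup.mk' C1) => (x : C' ⧸ C1)) h
        · intro h
          exact Subtype.ext h
      rw [h1, QuotientGroup.eq_one_iff, hC1]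
      constructor
      · rintro ⟨c', hc', h2⟩
        rwa [Subtype.ext h2] at hc'
      · intro h
        exact ⟨c, h, rfl⟩
    have hle : π.ker ≤ φ.ker := fun c hc =>
      MonoidHom.mem_ker.2 ((hπk c).1 (MonoidHom.mem_ker.1 hc))
    let ψ := π.liftOfSurjective hπ ⟨φ, hle⟩
    have hψ : ∀ c, ψ (π c) = φ c := fun c =>
      π.liftOfRightInverse_comp_apply _ (Function.rightInverse_surjInv hπ) ⟨φ, hle⟩ c
    refine sp_of_finite h' (C' ⧸ C1) (C.map (QuotientGroup.mk' C1)) hi ((C' ⧸ C) × Fin s) ψ ?_
    rw [injective_iff_map_eq_one]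
    intro x hx
    obtain ⟨c, rfl⟩ := hπ x
    rw [hψ] at hx
    exact (hπk c).2 hx
  · intro F hF
    have hfin : (C1.subgroupOf (F.comap (QuotientGroup.mk' C1))).index ≠ 0 := by
      have h1 : ((QuotientGroup.mk' C1).subgroupComap F).ker =
          C1.subgroupOf (F.comap (QuotientGroup.mk' C1)) := by
        ext x
        rw [MonoidHom.mem_ker, Subgroup.mem_subgroupOf, ← QuotientGroup.eq_one_iff]
        constructor
        · intro h
          exact congrArg (fun y : F => (y : C' ⧸ C1)) h
        · intro h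
          exact Subtype.ext h
      rw [← h1]
      exact Subgroup.FiniteIndex.index_ne_zero
    have hmem : ∀ x : C1.subgroupOf (F.comap (QuotientGroup.mk' C1)), ((x : _) : C') ∈ C := by
      intro x
      obtain ⟨c, hc, h1⟩ := (hC1 _).1 (Subgroup.mem_subgroupOf.1 x.2)
      rw [← h1]
      exact c.2
    let j : C1.subgroupOf (F.comap (QuotientGroup.mk' C1)) →* C :=
      ⟨⟨fun x => ⟨((x : _) : C'), hmem x⟩, rfl⟩, fun a b => rfl⟩
    have hj : Function.Injective j := by
      intro a b hab
      have h1 := congrArg (fun c : C => (c : C')) hab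
      exact Subtype.ext (Subtype.ext h1)
    have hjN : ∀ x t, f (j x) t ∈ N := by
      intro x t
      obtain ⟨c, hc, h1⟩ := (hC1 _).1 (Subgroup.mem_subgroupOf.1 x.2)
      have h2 : j x = c := Subtype.ext h1.symm
      have h3 := hker c hc 1 t
      rw [map_one] at h3
      rw [h2]
      exact h3
    refine h _ (C1.subgroupOf (F.comap (QuotientGroup.mk' C1))) hfin s
      ⟨⟨fun c t => ⟨f (j c) t, hjN c t⟩, ?_⟩, ?_⟩ ?_
    · funext t
      apply Subtype.ext
      show f (j 1) t = 1
      rw [map_one, map_one]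
      rfl
    · intro a b
      funext t
      apply Subtype.ext
      show f (j (a * b)) t = f (j a) t * f (j b) t
      rw [map_mul, map_mul]
      rfl
    · intro a b hab
      apply hj
      apply hf
      funext t
      have h1 := congrFun hab t
      exact congrArg (fun x : N => (x : A)) h1

/-- extensions by elementary amenable groups -/
theorem st2_of_ea {A : Type} [Group A] (hA : EA A) : St2 k A := by
  have h : SP k A := by
    induction hA with
    | fin A => exact sp_fin A
    | comm A h => exact sp_comm A h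
    | ext A N h h' ih ih' => exact sp_ext A N ih ih'
    | union A H hH h ih => exact sp_union A H hH ih
  refine h A ⊤ (by simp) 1
    { toFun := fun c _ => c.1
      map_one' := rfl
      map_mul' := fun _ _ => rfl } ?_
  intro a b hab
  exact Subtype.ext (congrFun hab 0)

end St

end Pool.Agent.EHA
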