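import Pool.Agent.EH.P4
import Pool.Agent.HI.A3

set_option autoImplicit false
set_option linter.unusedSectionVars false

noncomputable section

open scoped InnerProductSpace ENNReal Topology
open Classical Filter ContinuousLinearMap

/-!
Approximation passes from subgroups of finite index to the group.
-/

namespace Pool.Agent.EHA

open Pool.Agent.VN Pool.Agent.LFT Pool.Agent.HI Pool.Agent.HX Pool.Agent.EH

section Fin

/-- upper semicontinuity of the dimension of kernels -/
lemma eventually_kr {G : Type} [Group G] {I : Type} {l : Filter I} {H : I → Type}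
    [∀ i, Group (H i)] (π : ∀ i, G →* H i) (hπ : ∀ g : G, g ≠ 1 → ∀ᶠ i in l, π i g ≠ 1)
    {ι μ : Type} [Fintype ι] [Fintype μ] (A : μ → (ι × G →₀ ℂ)) {ε : ℝ} (hε : 0 < ε) :
    ∀ᶠ i in l, dm (kr (mulR fun j => mapF (π i) (A j)) : Submodule ℂ (L2 ι (H i)))
      ≤ dm (kr (mulR A) : Submodule ℂ (L2 ι G)) + ε := by
  obtain ⟨F, hF1, hF2⟩ := kazhdan A hε
  have h1 : ∀ᶠ i in l, ∀ g ∈ F, π i g ≠ 1 := by
    rw [Filter.eventually_all_finset]
    exact fun g hg => hπ g (hF1 g hg)
  filter_upwards [h1] with i hi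
  have h2 := hF2 (π i) hi
  have e1 : (kr (mulR fun j => mapF (π i) (A j)) : Submodule ℂ (L2 ι (H i)))
      = Sol (Set.range fun j => mapF (π i) (A j)) := ker_mulR _
  have e2 : (kr (mulR A) : Submodule ℂ (L2 ι G)) = Sol (Set.range A) := ker_mulR _
  rw [e1, e2]
  exact h2

variable {G : Type} [Group G] {ι μ M : Type} [Fintype ι] [Fintype μ] [MulAction G M] [Fintype M]

lemma fA_eq (A : μ → (ι × G →₀ ℂ)) (j : μ) (c : M) :
    fA (κ := ι × M) Prod.fst Prod.snd A (j, c)
      = ∑ u ∈ (A j).support, Finsupp.single (((u.1, u.2 • c), u.2) : (ι × M) × G) (A j u) := by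
  unfold fA
  refine Finset.sum_congr rfl fun u _ => ?_
  rw [Finset.sum_eq_single (u.1, u.2 • c)]
  · rw [if_pos ⟨rfl, rfl⟩]
  · intro a _ ha
    rw [if_neg]
    rintro ⟨h1, h2⟩
    exact ha (Prod.ext h1 h2)
  · intro h
    exact absurd (Finset.mem_univ _) h

lemma fA_coef {k : Subring ℂ} {A : μ → (ι × G →₀ ℂ)} (hA : ∀ j, CoefIn k (A j)) (j : μ) (c : M) :
    CoefIn k (fA (κ := ι × M) Prod.fst Prod.snd A (j, c)) := by
  rw [fA_eq]
  exact coefIn_sum _ _ _ fun u _ => coefIn_single _ _ _ (hA _ _)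

lemma fA_loc (A : μ → (ι × G →₀ ℂ)) (j : μ) (c : M) :
    ∀ q ∈ (fA (κ := ι × M) Prod.fst Prod.snd A (j, c)).support, q.2⁻¹ • q.1.2 = c := by
  intro q hq
  by_contra hne
  rw [Finsupp.mem_support_iff] at hq
  apply hq
  rw [fA_eq, Finsupp.finsetSum_apply]
  refine Finset.sum_eq_zero fun u hu => ?_
  rw [Finsupp.single_apply, if_neg]
  rintro rfl
  apply hne
  show u.2⁻¹ • u.2 • c = c
  rw [inv_smul_smul]

lemma ev_map_fA {H : Type} [Group H] (π : G →* H) (A : μ → (ι × G →₀ ℂ)) (j : μ) (c : M)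
    (y : L2 (ι × M) H) (g : H) :
    ev (mapF π (fA (κ := ι × M) Prod.fst Prod.snd A (j, c))) y g
      = ∑ u ∈ (A j).support, A j u * y ((u.1, u.2 • c), g * (π u.2)⁻¹) := by
  have e1 : mapF π (fA (κ := ι × M) Prod.fst Prod.snd A (j, c))
      = ∑ u ∈ (A j).support, Finsupp.single (((u.1, u.2 • c), π u.2) : (ι × M) × H) (A j u) := by
    rw [fA_eq, mapF_eq, Finsupp.mapDomain_finsetSum]
    refine Finset.sum_congr rfl fun u _ => ?_
    rw [Finsupp.mapDomain_single]
  rw [e1, ev_finsetSum]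
  refine Finset.sum_congr rfl fun u _ => ?_
  rw [ev_single]

/-- the rows of the sum over the places -/
def sR (ι M G : Type) [Group G] [Fintype ι] [Fintype M] (i : ι) : (ι × M) × G →₀ ℂ :=
  ∑ a : ι × M, if a.1 = i then Finsupp.single (a, (1 : G)) 1 else 0

lemma sR_map {H : Type} [Group H] (π : G →* H) (i : ι) : mapF π (sR ι M G i) = sR ι M H i := by
  unfold sR
  rw [mapF_eq, Finsupp.mapDomain_finsetSum]
  refine Finset.sum_congr rfl fun a _ => ?_
  split_ifs with h
  · rw [Finsupp.mapDomain_single, map_one]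
  · exact Finsupp.mapDomain_zero

lemma fT_apply' {H : Type} [Group H] (y : L2 (ι × M) H) (i : ι) (g : H) :
    (fT (Prod.fst : ι × M → ι) y) (i, g) = ∑ c : M, y ((i, c), g) := by
  rw [P4_fT, Fintype.sum_prod_type, Finset.sum_eq_single i]
  · refine Finset.sum_congr rfl fun c _ => ?_
    rw [if_pos rfl]
  · intro b _ hb
    refine Finset.sum_eq_zero fun c _ => ?_
    rw [if_neg hb]
  · intro h
    exact absurd (Finset.mem_univ _) h

/-- the constant families -/
def cJ (ι M H : Type) [Group H] [Fintype ι] [Fintype M] : L2 ι H →L[ℂ] L2 (ι × M) H :=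
  mulR fun a => Finsupp.single (a.1, (1 : H)) 1

lemma cJ_apply {H : Type} [Group H] (x : L2 ι H) (a : ι × M) (g : H) :
    (cJ ι M H x) (a, g) = x (a.1, g) := by
  unfold cJ
  rw [mulR_apply, ev_single, inv_one, mul_one, one_mul]

/-- the dimension of the families and of the families with sum zero -/
lemma dm_split {H : Type} [Group H] (π : G →* H) (A : μ → (ι × G →₀ ℂ)) [Nonempty M] :
    dm (kr (mulR fun r : μ × (Finset.univ : Finset M) =>
        mapF π (fAC (κ := ι × M) Prod.fst Prod.snd A Finset.univ r)) : Submodule ℂ (L2 (ι × M) H))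
      = dm (kr (mulR fun j => mapF π (A j)) : Submodule ℂ (L2 ι H))
      + dm (kr (mulR fun r => mapF π (Sum.elim (fun r : μ × (Finset.univ : Finset M) =>
          fAC (κ := ι × M) Prod.fst Prod.snd A Finset.univ r) (sR ι M G) r)) :
            Submodule ℂ (L2 (ι × M) H)) := by
  have hmem : ∀ y : L2 (ι × M) H, y ∈ kr (mulR fun r : μ × (Finset.univ : Finset M) =>
        mapF π (fAC (κ := ι × M) Prod.fst Prod.snd A Finset.univ r)) ↔
      ∀ (j : μ) (c : M) (g : H),
        ∑ u ∈ (A j).support, A j u * y ((u.1, u.2 • c), g * (π u.2)⁻¹) = 0 := by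
    intro y
    rw [mem_kr]
    constructor
    · intro h j c g
      have h1 : (mulR (fun r : μ × (Finset.univ : Finset M) =>
        mapF π (fAC (κ := ι × M) Prod.fst Prod.snd A Finset.univ r)) y)
          ((j, ⟨c, Finset.mem_univ c⟩), g) = 0 := by rw [h]; rfl
      rw [mulR_apply] at h1
      rw [← ev_map_fA]
      exact h1
    · intro h
      ext q
      obtain ⟨⟨j, c⟩, g⟩ := q
      rw [mulR_apply]
      have h1 := h j c.1 g
      rw [← ev_map_fA] at h1
      exact h1
  have hmem' : ∀ x : L2 ι H, x ∈ kr (mulR fun j => mapF π (A j)) ↔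
      ∀ (j : μ) (g : H), ∑ u ∈ (A j).support, A j u * x (u.1, g * (π u.2)⁻¹) = 0 := by
    intro x
    rw [mem_kr]
    constructor
    · intro h j g
      have h1 : (mulR (fun j => mapF π (A j)) x) (j, g) = 0 := by rw [h]; rfl
      rw [mulR_apply, ev_mapF] at h1
      exact h1
    · intro h
      ext q
      obtain ⟨j, g⟩ := q
      rw [mulR_apply, ev_mapF]
      exact h j g
  have hT : (mulR (sR ι M H) : L2 (ι × M) H →L[ℂ] L2 ι H) = fT (Prod.fst : ι × M → ι) := rfl
  have hTe : Equivar (mulR (sR ι M H) : L2 (ι × M) H →L[ℂ] L2 ι H) := mulR_equivar _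
  rw [A3_kr_sum']
  simp only [sR_map]
  have h1 := dm_imc hTe (X := kr (mulR fun r : μ × (Finset.univ : Finset M) =>
        mapF π (fAC (κ := ι × M) Prod.fst Prod.snd A Finset.univ r))) (CI.kr (mulR_equivar _))
  rw [← h1]
  congr 2
  apply le_antisymm
  · apply imc_le (kr_closed _)
    intro y hy
    rw [hmem] at hy
    rw [hmem', hT]
    intro j g
    have h2 : ∀ u ∈ (A j).support, A j u * (fT (Prod.fst : ι × M → ι) y) (u.1, g * (π u.2)⁻¹)
        = ∑ c : M, A j u * y ((u.1, u.2 • c), g * (π u.2)⁻¹) := by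
      intro u _
      rw [fT_apply', Finset.mul_sum]
      exact (Fintype.sum_equiv (MulAction.toPerm u.2) _ _ fun c => rfl).symm
    rw [Finset.sum_congr rfl h2, Finset.sum_comm]
    exact Finset.sum_eq_zero fun c _ => hy j c g
  · intro x hx
    have hc : (Fintype.card M : ℂ) ≠ 0 := by
      rw [Nat.cast_ne_zero]
      exact Fintype.card_ne_zero
    have h2 : x = mulR (sR ι M H) (cJ ι M H ((Fintype.card M : ℂ)⁻¹ • x)) := by
      rw [hT]
      ext q
      obtain ⟨i, g⟩ := q
      rw [fT_apply']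
      have h3 : ∀ c : M, (cJ ι M H ((Fintype.card M : ℂ)⁻¹ • x)) ((i, c), g)
          = (Fintype.card M : ℂ)⁻¹ * x (i, g) := by
        intro c
        rw [cJ_apply, lp.coeFn_smul, Pi.smul_apply, smul_eq_mul]
      rw [Finset.sum_congr rfl fun c _ => h3 c, Finset.sum_const, Finset.card_univ, nsmul_eq_mul,
        mul_inv_cancel_left₀ hc]
    rw [h2]
    apply mem_imc
    rw [hmem]
    intro j c g
    have h4 : (Fintype.card M : ℂ)⁻¹ • x ∈ kr (mulR fun j => mapF π (A j)) :=
      Submodule.smul_mem _ _ hx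
    rw [hmem'] at h4
    rw [← h4 j g]
    refine Finset.sum_congr rfl fun u _ => ?_
    rw [cJ_apply]

/-- the dimension of the families over the group itself -/
lemma dm_id (A : μ → (ι × G →₀ ℂ)) :
    dm (kr (mulR fun r : μ × (Finset.univ : Finset M) =>
        fAC (κ := ι × M) Prod.fst Prod.snd A Finset.univ r) : Submodule ℂ (L2 (ι × M) G))
      = Fintype.card M * dm (kr (mulR A) : Submodule ℂ (L2 ι G)) := by
  rw [dm_fam (Prod.fst : ι × M → ι) (Prod.snd : ι × M → M)
    (fun a b h1 h2 => Prod.ext h1 h2) A (C := Finset.univ) (fun j u _ a _ => Finset.mem_univ _)]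
  have h1 : ∀ c : M, XR (kr (mulR A)) (Prod.fst : ι × M → ι) (Prod.snd : ι × M → M) c
      = (kr (mulR A) : Submodule ℂ (L2 ι G)) := by
    intro c
    ext x
    constructor
    · exact fun h => h.1
    · intro h
      refine ⟨h, fun q _ => ⟨(q.1, q.2⁻¹ • c), rfl, ?_⟩⟩
      show q.2 • q.2⁻¹ • c = c
      rw [smul_inv_smul]
  simp only [h1]
  rw [Fintype.sum_prod_type_right]
  show ∑ _y : M, ∑ x : ι, ltr (kr (mulR A)) (x, 1) = _
  rw [Finset.sum_const, Finset.card_univ, nsmul_eq_mul]
  rfl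

end Fin

/-- F1: approximation passes from subgroups of finite index to the group -/
theorem approx_finindex (k : Subring ℂ) {G : Type} [Group G] {I : Type}
    (l : Filter I) {H : I → Type} [∀ i, Group (H i)] (π : ∀ i, G →* H i)
    (hπ : ∀ g : G, g ≠ 1 → ∀ᶠ i in l, π i g ≠ 1) (K : Subgroup G) (hK : K.index ≠ 0)
    (h : ApproxAlong k l fun i => (π i).comp K.subtype) : ApproxAlong k l π := by
  have : K.FiniteIndex := ⟨hK⟩
  have : Finite (G ⧸ K.normalCore) := Subgroup.finite_quotient_of_finiteIndex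
  have : Fintype (G ⧸ K.normalCore) := Fintype.ofFinite _
  have hst : ∀ m : G ⧸ K.normalCore,
      ApproxAlong k l (fun i => (π i).comp (MulAction.stabilizer G m).subtype) := by
    intro m
    have hle : MulAction.stabilizer G m ≤ K := by
      refine le_trans ?_ (Subgroup.normalCore_le K)
      intro x hx
      obtain ⟨g, rfl⟩ := QuotientGroup.mk_surjective m
      rw [MulAction.mem_stabilizer_iff, MulAction.Quotient.smul_coe, smul_eq_mul,
        eq_comm, QuotientGroup.eq] at hx
      have h1 := (inferInstance : K.normalCore.Normal).conj_mem _ hx g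
      have h2 : g * (g⁻¹ * (x * g)) * g⁻¹ = x := by group
      rwa [h2] at h1
    exact approx_of_injective k l (fun i => (π i).comp K.subtype) (Subgroup.inclusion hle)
      (Subgroup.inclusion_injective hle) h
  intro m n A0 hA0
  set A : Fin n → (Fin m × G →₀ ℂ) := colF A0 with hA
  have hcoef : ∀ j, CoefIn k (A j) := by
    rintro j ⟨i, g⟩
    rw [hA, colF_apply]
    exact hA0 i j g
  have hkd : ∀ (H' : Type) [Group H'] (π' : G →* H'), kerDim (pushMat π' A0)
      = dm (kr (mulR fun j => mapF π' (A j)) : Submodule ℂ (L2 (Fin m) H')) := by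
    intro H' _ π'
    rw [kerDim_pushMat, ← Set.range_comp]
    have e1 : (kr (mulR fun j => mapF π' (A j)) : Submodule ℂ (L2 (Fin m) H'))
        = Sol (Set.range fun j => mapF π' (A j)) := ker_mulR _
    rw [e1]
    rfl
  have hkd0 : kerDim A0 = dm (kr (mulR A) : Submodule ℂ (L2 (Fin m) G)) := by
    rw [kerDim_eq]
    have e1 : (kr (mulR A) : Submodule ℂ (L2 (Fin m) G)) = Sol (Set.range A) := ker_mulR _
    rw [e1]
    rfl
  -- convergence for the families
  set R : Fin n × (Finset.univ : Finset (G ⧸ K.normalCore)) → _ :=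
    fun r => fAC (κ := Fin m × (G ⧸ K.normalCore)) Prod.fst Prod.snd A Finset.univ r with hR
  have hlim := approx_local k l π hst (κ := Fin m × (G ⧸ K.normalCore))
    (lab := fun a : Fin m × (G ⧸ K.normalCore) => a.2)
    (lab' := fun r : Fin n × (Finset.univ : Finset (G ⧸ K.normalCore)) => r.2.1) R
    (fun r => fA_coef hcoef r.1 r.2.1) (fun r => fA_loc A r.1 r.2.1)
  set E := Sum.elim R (sR (Fin m) (G ⧸ K.normalCore) G) with hE
  have hs : ∀ i, dm (kr (mulR fun r => mapF (π i) (R r)) :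
        Submodule ℂ (L2 (Fin m × (G ⧸ K.normalCore)) (H i)))
      = kerDim (pushMat (π i) A0)
      + dm (kr (mulR fun r => mapF (π i) (E r)) :
        Submodule ℂ (L2 (Fin m × (G ⧸ K.normalCore)) (H i))) := by
    intro i
    rw [hkd]
    exact dm_split (π i) A
  have hs0 : dm (kr (mulR R) : Submodule ℂ (L2 (Fin m × (G ⧸ K.normalCore)) G))
      = kerDim A0 + dm (kr (mulR E) : Submodule ℂ (L2 (Fin m × (G ⧸ K.normalCore)) G)) := by
    have h1 := dm_split (M := G ⧸ K.normalCore) (MonoidHom.id G) A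
    rw [A3_mapF_id, A3_mapF_id, A3_mapF_id] at h1
    rw [hkd0]
    exact h1
  rw [Metric.tendsto_nhds]
  intro ε hε
  have h1 := eventually_kr π hπ A (half_pos hε)
  have h2 := eventually_kr π hπ E (half_pos hε)
  have h3 := (Metric.tendsto_nhds.1 hlim) (ε / 2) (half_pos hε)
  filter_upwards [h1, h2, h3] with i h1 h2 h3
  rw [hs i, hs0, Real.dist_eq, abs_lt] at h3
  rw [← hkd, ← hkd0] at h1
  rw [Real.dist_eq, abs_lt]
  constructor <;> linarith [h3.1, h3.2]

end Pool.Agent.EHA
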