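import Pool.Agent.EHA.Ea
import Pool.Agent.HL.Hier

set_option autoImplicit false
set_option linter.unusedSectionVars false

noncomputable section

open scoped InnerProductSpace ENNReal Topology
open Classical Filter ContinuousLinearMap

/-!
Approximation for extensions with quotient in the class `HierL`.
-/

namespace Pool.Agent.EHA

open Pool.Agent.VN Pool.Agent.LFT Pool.Agent.HI Pool.Agent.HX Pool.Agent.EH Pool.Agent.HL

theorem pa_of_hierL (k : Subring ℂ) (G : Type) [inst : Group G] (h : HierL G) : PA k G := by
  induction h with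
  | triv G => exact pa_triv G
  | tree G V T hT hadj hinv _ ih => exact pa_tree T hT hadj hinv ih
  | ext G A p hA _ ih => exact st2_of_ea hA G p ih
  | union G H hH _ ih => exact pa_union G H hH ih
  | loc G h ih => exact ⟨pb_local k G fun D hD hZ => (ih D hD hZ).1, apE_local G ih⟩

/-- approximation for groups with a subgroup of finite index which maps to a group in the class -/
theorem approx_of_hierL (k : Subring ℂ) (G : Type) [Group G] (G0 : Subgroup G)
    (hG0 : G0.index ≠ 0) (Q : Type) [Group Q] (hQ : HierL Q) (f : G0 →* Q)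
    (hf : AtiyahOver k f.ker) {I : Type} (l : Filter I) {H : I → Type} [∀ i, Group (H i)]
    (π : ∀ i, G →* H i) (hπ : ∀ g : G, g ≠ 1 → ∀ᶠ i in l, π i g ≠ 1)
    (h : ApproxAlong k l fun i => ((π i).comp G0.subtype).comp f.ker.subtype) :
    ApproxAlong k l π :=
  approx_finindex k l π hπ G0 hG0
    ((pa_of_hierL k Q hQ).2 G0 f hf I l H _ (pi_sub hπ G0) h)

end Pool.Agent.EHA
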