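import Pool.Agent.EHA.Final
import Pool.Agent.HX.AtMain
import Pool.Agent.HX.ApMain
import Pool.Agent.HL.Hier

set_option autoImplicit false

noncomputable section

open scoped Topology
open Filter

/-!
Approximation: the local step, extensions with quotients in `HierL` and finite index together.
-/

namespace Pool.Agent.EHA

open Pool.Agent.VN Pool.Agent.HL Pool.Agent.HX Pool.Agent.HI

/-- Approximation along `π` for a group which has a subgroup of finite index all of whose finitely
generated subgroups without nontrivial homomorphisms to `ℤ` have a homomorphism to a group in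
`HierL` whose kernel satisfies the Atiyah conjecture and approximation. -/
theorem approx_merge (k : Subring ℂ) (G : Type) [Group G] (G0 : Subgroup G) (hG0 : G0.index ≠ 0)
    {I : Type} (l : Filter I) {H : I → Type} [∀ i, Group (H i)] (π : ∀ i, G →* H i)
    (hπ : ∀ g : G, g ≠ 1 → ∀ᶠ i in l, π i g ≠ 1)
    (h : ∀ K : Subgroup G0, K.FG → (∀ f : K →* Multiplicative ℤ, f = 1) →
      ∃ (Q : Type) (_ : Group Q) (f : K →* Q), HierL Q ∧ AtiyahOver k f.ker ∧
        ApproxAlong k l fun i =>
          (((π i).comp G0.subtype).comp K.subtype).comp f.ker.subtype) :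
    ApproxAlong k l π := by
  have hπ0 : ∀ g : G0, g ≠ 1 → ∀ᶠ i in l, ((π i).comp G0.subtype) g ≠ 1 := by
    intro g hg
    refine hπ (g : G) fun h1 => hg (Subtype.ext h1)
  have hat : AtiyahOver k G0 := by
    refine atiyah_of_fg k G0 fun K hfg h0 => ?_
    obtain ⟨Q, _, f, hQ, hf, _⟩ := h K hfg h0
    exact atiyah_of_hierL k K Q f hQ hf
  have hap : ApproxAlong k l fun i => (π i).comp G0.subtype := by
    refine approx_of_fg k l (fun i => (π i).comp G0.subtype) hπ0 fun K hfg h0 => ?_
    obtain ⟨Q, _, f, hQ, hf, hap⟩ := h K hfg h0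
    refine ⟨atiyah_of_hierL k K Q f hQ hf, ?_⟩
    have hπK : ∀ g : K, g ≠ 1 → ∀ᶠ i in l, (((π i).comp G0.subtype).comp K.subtype) g ≠ 1 := by
      intro g hg
      refine hπ0 (g : G0) fun h1 => hg (Subtype.ext h1)
    -- the subgroup `⊤` of finite index in `K`
    have hf2 : AtiyahOver k (f.comp (⊤ : Subgroup K).subtype).ker := by
      refine AtiyahOver.of_injective hf (MonoidHom.mk' (fun x => (⟨x.1.1, x.2⟩ : f.ker))
        fun a b => rfl) ?_
      intro a b hab
      have h2 : a.1.1 = b.1.1 := congrArg (fun x : f.ker => x.1) hab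
      exact Subtype.ext (Subtype.ext h2)
    have hap2 := approx_of_injective k l
      (fun i => (((π i).comp G0.subtype).comp K.subtype).comp f.ker.subtype)
      (MonoidHom.mk' (fun x : (f.comp (⊤ : Subgroup K).subtype).ker => (⟨x.1.1, x.2⟩ : f.ker))
        fun a b => rfl) (by
          intro a b hab
          have h2 : a.1.1 = b.1.1 := congrArg (fun x : f.ker => x.1) hab
          exact Subtype.ext (Subtype.ext h2)) hap
    exact approx_of_hierL k K ⊤ (by simp) Q hQ (f.comp (⊤ : Subgroup K).subtype) hf2 l _ hπK hap2
  -- finite index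
  have hker : AtiyahOver k (1 : G0 →* PUnit).ker := by
    refine AtiyahOver.of_injective hat (Subgroup.subtype _) (Subgroup.subtype_injective _)
  have hQ : HierL PUnit := HierL.triv _
  refine approx_of_hierL k G G0 hG0 PUnit hQ (1 : G0 →* PUnit) hker l π hπ ?_
  exact approx_of_injective k l (fun i => (π i).comp G0.subtype) _
    (Subgroup.subtype_injective _) hap

end Pool.Agent.EHA
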