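import Pool.Agent.EHA.Fin
import Pool.Agent.HI.A4
import Pool.Agent.EH.P16

set_option autoImplicit false
set_option linter.unusedSectionVars false

noncomputable section

open scoped InnerProductSpace ENNReal Topology
open Classical Filter ContinuousLinearMap

/-!
Approximation for groups which map to a group acting on a tree.
-/

namespace Pool.Agent.EHA

open Pool.Agent.VN Pool.Agent.LFT Pool.Agent.HI Pool.Agent.HX Pool.Agent.EH

/-- the formula for a forest if the set of vertices is good -/
theorem af_step {k : Subring ℂ} {G D A B : Type} [Group G] [MulAction G D]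
    [MulAction G A] [MulAction G B] {a : D → A} {b : D → B}
    (ha : Eqv G a) (hb : Eqv G b) (hhalf : Half a b)
    (hstab : ∀ (g : G) δ, g • b δ = b δ → g • δ = δ)
    (hG : Pool.Agent.HE.Good k G A) (Γ : Type) [Group Γ] (π : Γ →* G) (hπ : AtiyahOver k π.ker)
    (U : Type) [MulAction Γ U] :
      AF k Γ (Prod.map a id : Via π D × U → Via π A × U)
        (Prod.map b id : Via π D × U → Via π B × U) := by
  refine af_of_keys (fun g m => Prod.ext (ha (π g) m.1) rfl)
    (fun g m => Prod.ext (hb (π g) m.1) rfl) (Half.prod hhalf U) ?_ ?_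
  · intro ι _ d P hP hl u Y hY ε hε
    have hInt : Int0 k (Sd (Lett (Via π D)) Γ) (Via (rh (Lett (Via π D)) Γ) (Via π A × U)) := by
      have h1 := (hG (Sd (Lett (Via π D)) Γ) (π.comp (rh (Lett (Via π D)) Γ))
        (Pool.Agent.HE.ker_ext hπ (fun γ hγ x => by
          refine Prod.ext ?_ rfl
          show toVia π (π γ • ofVia x.1) = x.1
          rw [hγ, one_smul]
          rfl))).1
        (Via (rh (Lett (Via π D)) Γ) U)
      exact Int0.of_map (M' := Via (π.comp (rh (Lett (Via π D)) Γ)) A ×
        Via (rh (Lett (Via π D)) Γ) U) (fun x => ((x.1, x.2) : A × U)) (fun g m => rfl) h1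
    have hAF : AF k (Sd (Lett (Via π D)) Γ)
        (Prod.map (ta (Lett (Via π D)) Γ) id : TD (Lett (Via π D)) Γ ×
          Via (rh (Lett (Via π D)) Γ) (Via π A × U) →
            TA (Lett (Via π D)) Γ × Via (rh (Lett (Via π D)) Γ) (Via π A × U))
        (Prod.map (tb (Lett (Via π D)) Γ) id : TD (Lett (Via π D)) Γ ×
          Via (rh (Lett (Via π D)) Γ) (Via π A × U) →
            TB (Lett (Via π D)) Γ × Via (rh (Lett (Via π D)) Γ) (Via π A × U)) := by
      have h1 := (hG Γ π hπ).2 (Lett (Via π D)) (fun γ hγ x => by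
        refine Prod.ext ?_ rfl
        show toVia π (π γ • ofVia x.1) = x.1
        rw [hγ, one_smul]
        rfl) (Via (rh (Lett (Via π D)) Γ) U)
      exact AF.of_inj (D' := TD (Lett (Via π D)) Γ × (Via (π.comp (rh (Lett (Via π D)) Γ)) A ×
          Via (rh (Lett (Via π D)) Γ) U))
        (A' := TA (Lett (Via π D)) Γ × (Via (π.comp (rh (Lett (Via π D)) Γ)) A ×
          Via (rh (Lett (Via π D)) Γ) U))
        (B' := TB (Lett (Via π D)) Γ × (Via (π.comp (rh (Lett (Via π D)) Γ)) A ×
          Via (rh (Lett (Via π D)) Γ) U))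
        (fun x => (x.1, ((x.2.1, x.2.2) : A × U)))
        (fun x => (x.1, ((x.2.1, x.2.2) : A × U))) (fun x => (x.1, ((x.2.1, x.2.2) : A × U)))
        (fun g m => rfl) (fun g m => rfl) (fun g m => rfl)
        (fun x y h => by
          have h1 := congrArg Prod.fst h
          have h2 := congrArg Prod.snd h
          exact Prod.ext h1 h2)
        (fun δ => rfl) (fun δ => rfl) h1
    have hj1 : Eqv Γ (fun x : Via π D × U => (((a x.1, x.2), x.1) : (Via π A × U) × Via π D)) :=
      fun g m => Prod.ext (Prod.ext (ha (π g) m.1) rfl) rfl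
    have hj2 : Function.Injective
        (fun x : Via π D × U => (((a x.1, x.2), x.1) : (Via π A × U) × Via π D)) := by
      intro x y h
      exact Prod.ext (congrArg Prod.snd h) (congrArg (fun q => q.1.2) h)
    have hlj := loc_of_inj _ hj1 hj2 hl
    obtain ⟨S, hS, hSe⟩ := key_of_ext hInt hAF (fun i => ((a (d i).1, (d i).2) : Via π A × U))
      (fun i => ((d i).1 : Via π D)) hP hlj u hY
    exact ⟨S, rat_of_inj _ hj1 hj2 hS, by linarith⟩
  · intro ι _ d P hP hl u Y hY ε hε
    refine key_of_stab (a := (Prod.map b id : Via π D × U → Via π B × U))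
      (fun g m => Prod.ext (hb (π g) m.1) rfl) ?_ d hP hl u hY hε
    intro g δ h
    have h1 := congrArg Prod.fst h
    have h2 := congrArg Prod.snd h
    exact Prod.ext (hstab (π g) δ.1 h1) h2

section Tree

variable {B V : Type} [Group B] [MulAction B V]

/-- sets with good stabilisers are good -/
theorem good_verts {k : Subring ℂ} (h : ∀ v : V, Pool.Agent.HE.PB k (MulAction.stabilizer B v))
    {G W : Type} [Group G] [MulAction G W] {c : G → W → B} (hc : Coc c) :
    Pool.Agent.HE.Good k G (Tw hc V) := by
  refine Pool.Agent.HE.good_sigma (C := Quotient (MulAction.orbitRel B V))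
    (fun x => Quotient.mk (MulAction.orbitRel B V) x.2) ?_ ?_
  · intro g x
    exact Quotient.sound (s := MulAction.orbitRel B V) ⟨c g x.1, rfl⟩
  · intro c0
    obtain ⟨v, rfl⟩ := Quotient.exists_rep c0
    refine ⟨Tw hc (MulAction.orbit B v), inferInstance, fun x => mkTw hc x.1 x.2.1,
      fun g x => rfl, ?_, ?_, ?_⟩
    · rintro ⟨w, y⟩ ⟨w', y'⟩ hx
      have h2 : w = w' := congrArg (fun x : Tw hc V => x.1) hx
      have h3 : y.1 = y'.1 := congrArg (fun x : Tw hc V => x.2) hx
      exact Prod.ext h2 (Subtype.ext h3)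
    · rintro ⟨w, y⟩ hw
      have h2 : y ∈ MulAction.orbit B v := Quotient.exact hw
      exact ⟨mkTw hc w ⟨y, h2⟩, rfl⟩
    · refine Pool.Agent.HE.good_tw hc (⟨v, MulAction.mem_orbit_self v⟩ : MulAction.orbit B v) ?_
        (MulAction.stabilizer B v) ?_ (h v)
      · rintro ⟨y, b, rfl⟩
        exact ⟨b, rfl⟩
      · ext g
        rw [MulAction.mem_stabilizer_iff, MulAction.mem_stabilizer_iff]
        constructor
        · intro h2
          exact congrArg Subtype.val h2
        · intro h2
          exact Subtype.ext h2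

/-- approximation for groups which map to a group acting on a tree -/
theorem approx_tree_ext {k : Subring ℂ} (T : SimpleGraph V) (hT : T.IsTree)
    (hadj : ∀ (g : B) (u v : V), T.Adj u v → T.Adj (g • u) (g • v))
    (hinv : ∀ (g : B) (u v : V), T.Adj u v → ¬ (g • u = v ∧ g • v = u))
    (h : ∀ v : V, Pool.Agent.HE.PB k (MulAction.stabilizer B v))
    {G : Type} [Group G] (f : G →* B) (hf : AtiyahOver k f.ker)
    {I : Type} (l : Filter I) {H : I → Type} [∀ i, Group (H i)] (π : ∀ i, G →* H i)
    (hπ : ∀ g : G, g ≠ 1 → ∀ᶠ i in l, π i g ≠ 1)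
    (hv : ∀ v : V, ApproxAlong k l
      (fun i => (π i).comp ((MulAction.stabilizer B v).comap f).subtype)) :
    ApproxAlong k l π := by
  have hadj' : ∀ (g : G) (u v : Via f V), T.Adj u v → T.Adj (g • u) (g • v) :=
    fun g u v huv => hadj (f g) u v huv
  have hinv' : ∀ (g : G) (u v : Via f V), T.Adj u v → ¬ (g • u = v ∧ g • v = u) :=
    fun g u v huv => hinv (f g) u v huv
  let T' : SimpleGraph (Via f V) := T
  let i3 : MulAction G T'.Dart := dartAct (G := G) T' hadj'
  let i4 : MulAction G {e : Sym2 (Via f V) // e ∈ T'.edgeSet} := edgeAct (G := G) T' hadj'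
  refine approx_tree (B := G) T' hT hadj' hinv' ?_ l π hπ ?_
  · let i1 : MulAction B T.Dart := dartAct T hadj
    let i2 : MulAction B {e : Sym2 V // e ∈ T.edgeSet} := edgeAct T hadj
    have hgood : Pool.Agent.HE.Good k B V := by
      have h1 := good_verts h (coc_unit B)
      exact Pool.Agent.HE.good_sigma (C := Unit) (fun _ => ()) (fun g w => rfl) fun c0 =>
        ⟨Tw (coc_unit B) V, inferInstance, fun x => x.2, fun g x => rfl,
          fun x y hxy => Prod.ext rfl hxy, fun w _ => ⟨mkTw (coc_unit B) () w, rfl⟩, h1⟩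
    have h2 := af_step (a := fun e : T.Dart => e.fst)
      (b := fun e : T.Dart => (⟨e.edge, e.edge_mem⟩ : {e : Sym2 V // e ∈ T.edgeSet}))
      (fun g δ => rfl) (fun g δ => rfl) (tree_half T hT)
      (fun g δ h => dart_of_edge T hadj hinv g δ h) hgood G f hf Unit
    exact AF.of_inj (D' := Via f T.Dart × Unit)
      (A' := Via f V × Unit)
      (B' := Via f {e : Sym2 V // e ∈ T.edgeSet} × Unit)
      (fun x => (x, ())) (fun x => (x, ())) (fun x => (x, ()))
      (fun g m => rfl) (fun g m => rfl) (fun g m => rfl)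
      (fun x y hxy => congrArg Prod.fst hxy) (fun δ => rfl) (fun δ => rfl) h2
  · intro v
    have hle : MulAction.stabilizer G v ≤ (MulAction.stabilizer B (ofVia v)).comap f := by
      intro g hg
      exact hg
    have h1 := approx_of_injective k l
      (fun i => (π i).comp ((MulAction.stabilizer B (ofVia v)).comap f).subtype)
      (Subgroup.inclusion hle) (Subgroup.inclusion_injective hle) (hv (ofVia v))
    have h2 : (fun i => ((π i).comp ((MulAction.stabilizer B (ofVia v)).comap f).subtype).comp
        (Subgroup.inclusion hle)) = fun i => (π i).comp (MulAction.stabilizer G v).subtype := by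
      funext i
      ext g
      rfl
    rwa [h2] at h1

end Tree

end Pool.Agent.EHA
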